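import Pool.Agent.Helper99.BK.Stmts

namespace Pool.Helper99.BK

theorem st_AN6 : ST_AN6 := by
  intro ι _ _ M B hB
  rw [Matrix.det_apply]
  refine (norm_sum_le _ _).trans ?_
  have h : ∀ σ ∈ (Finset.univ : Finset (Equiv.Perm ι)),
      ‖Equiv.Perm.sign σ • ∏ i, M (σ i) i‖ ≤ B ^ Fintype.card ι := by
    intro σ _
    have h1 : ‖Equiv.Perm.sign σ • ∏ i, M (σ i) i‖ = ‖∏ i, M (σ i) i‖ := by
      rcases Int.units_eq_one_or (Equiv.Perm.sign σ) with h | h <;> simp [h]
    rw [h1, norm_prod]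
    calc ∏ i, ‖M (σ i) i‖ ≤ ∏ _i : ι, B :=
          Finset.prod_le_prod (fun _ _ => norm_nonneg _) (fun i _ => hB _ _)
      _ = B ^ Fintype.card ι := by rw [Finset.prod_const, Finset.card_univ]
  refine (Finset.sum_le_sum h).trans ?_
  rw [Finset.sum_const, Finset.card_univ, Fintype.card_perm, nsmul_eq_mul]

end Pool.Helper99.BK
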