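import Pool.Agent.Helper99.BK.Stmts

namespace Pool.Helper99.BK

theorem an8_num (N n : ℕ) (hN : 16 ≤ N) (hn : n ≤ N) :
    (N : ℝ) * Real.sqrt N / 12 ≤ ((N : ℝ) - n) * Real.sqrt N + (n : ℝ) * (Real.sqrt n - 1) / 2 := by
  have hN' : (16 : ℝ) ≤ N := by exact_mod_cast hN
  have hn' : (n : ℝ) ≤ N := by exact_mod_cast hn
  have hn0 : (0 : ℝ) ≤ n := Nat.cast_nonneg n
  have hs : Real.sqrt N * Real.sqrt N = N := Real.mul_self_sqrt (by linarith)
  have hs0 : 0 ≤ Real.sqrt N := Real.sqrt_nonneg _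
  have hs4 : 4 ≤ Real.sqrt N := by
    rw [show (4 : ℝ) = Real.sqrt 16 by
      rw [show (16 : ℝ) = 4 ^ 2 by norm_num, Real.sqrt_sq (by norm_num)]]
    exact Real.sqrt_le_sqrt hN'
  by_cases h : (n : ℝ) ≤ N / 2
  · have h1 : 0 ≤ (n : ℝ) * (Real.sqrt n - 1) / 2 := by
      rcases Nat.eq_zero_or_pos n with h0 | h0
      · simp [h0]
      · have : (1 : ℝ) ≤ n := by exact_mod_cast h0
        have : 1 ≤ Real.sqrt n := by
          rw [show (1 : ℝ) = Real.sqrt 1 by simp]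
          exact Real.sqrt_le_sqrt this
        have : 0 ≤ (n : ℝ) * (Real.sqrt n - 1) := mul_nonneg hn0 (by linarith)
        linarith
    nlinarith [mul_nonneg (by linarith : (0 : ℝ) ≤ N / 2 - n) hs0, mul_nonneg (by linarith : (0 : ℝ) ≤ N) hs0]
  · push Not at h
    have h2 : 7 / 10 * Real.sqrt N ≤ Real.sqrt n := by
      apply Real.le_sqrt_of_sq_le
      nlinarith
    have h3 : 9 / 20 * Real.sqrt N ≤ Real.sqrt n - 1 := by linarith
    have h4 : (N : ℝ) / 2 * (9 / 20 * Real.sqrt N) ≤ n * (Real.sqrt n - 1) :=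
      mul_le_mul h.le h3 (by positivity) hn0
    have h5 : 0 ≤ ((N : ℝ) - n) * Real.sqrt N := mul_nonneg (by linarith) hs0
    nlinarith [mul_nonneg (by linarith : (0 : ℝ) ≤ N) hs0]

theorem an8_det {ι : Type} [Fintype ι] [DecidableEq ι] (M0 M1 : ι → ι → ℂ) (ε : ℂ) :
    (Matrix.of (fun p j => M0 p j + ε * M1 p j)).det =
      ∑ I : Finset ι, ε ^ (Fintype.card ι - I.card) *
        (Matrix.of (fun p j => if j ∈ I then M0 p j else M1 p j)).det := by
  rw [← Matrix.det_transpose]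
  have e1 : (Matrix.of (fun p j => M0 p j + ε * M1 p j)).transpose =
      (fun j => fun p => M0 p j) + (fun j => fun p => ε * M1 p j) := by
    funext j p
    simp
  have e2 := (Matrix.detRowAlternating (n := ι) (R := ℂ)).toMultilinearMap.map_add_univ
    (fun j => fun p => M0 p j) (fun j => fun p => ε * M1 p j)
  rw [e1]
  refine (Eq.trans (show _ = (Matrix.detRowAlternating (n := ι) (R := ℂ)).toMultilinearMap
    ((fun j => fun p => M0 p j) + (fun j => fun p => ε * M1 p j)) from rfl) e2).trans ?_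
  refine Finset.sum_congr rfl fun I _ => ?_
  have e3 := (Matrix.detRowAlternating (n := ι) (R := ℂ)).toMultilinearMap.map_smul_univ
    (fun j => if j ∈ I then (1 : ℂ) else ε) (fun j => fun p => if j ∈ I then M0 p j else M1 p j)
  have e4 : I.piecewise (fun j => fun p => M0 p j) (fun j => fun p => ε * M1 p j) =
      fun j => (if j ∈ I then (1 : ℂ) else ε) • (fun p => if j ∈ I then M0 p j else M1 p j) := by
    funext j p
    by_cases h : j ∈ I
    · simp [Finset.piecewise, h]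
    · simp [Finset.piecewise, h]
  rw [e4, e3, smul_eq_mul, ← Matrix.det_transpose]
  congr 1
  rw [Finset.prod_ite, Finset.prod_const_one, one_mul, Finset.prod_const]
  congr 1
  rw [Finset.filter_not, Finset.filter_mem_eq_inter, Finset.univ_inter, ← Finset.compl_eq_univ_sdiff,
    Finset.card_compl]

theorem st_AN8 (h7 : ST_AN7) : ST_AN8 := by
  intro K Lc hN z1 z2 κ l1 l2 l0 Z C0 hZ hC h1 h2 hκ hc h0
  set N : ℕ := K * K * Lc with hNdef
  have hcard : Fintype.card (Fin K × Fin K × Fin Lc) = N := by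
    simp [hNdef, mul_assoc]
  set ε : ℝ := Real.exp (-Real.sqrt (N : ℝ)) with hε
  have hεpos : 0 < ε := Real.exp_pos _
  have hε1 : ε ≤ 1 := by
    rw [hε, Real.exp_le_one_iff]
    linarith [Real.sqrt_nonneg (N : ℝ)]
  set B : ℝ := (3 * Z) ^ (2 * K) * Real.exp (3 * Lc * C0) with hB
  let M0 : Fin K × Fin K × Fin Lc → Fin K × Fin K × Fin Lc → ℂ := fun p j =>
    z1 p ^ (j.1 : ℕ) * z2 p ^ (j.2.1 : ℕ) * Complex.exp (((j.2.2 : ℕ) : ℂ) * (z1 p * l1 + z2 p * l2))
  let E : Fin K × Fin K × Fin Lc → Fin K × Fin K × Fin Lc → ℂ := fun p j =>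
    (Complex.exp (((j.2.2 : ℕ) : ℂ) * (κ p * l0)) - 1) / (ε : ℂ)
  have hεc : (ε : ℂ) ≠ 0 := by exact_mod_cast hεpos.ne'
  have hE : ∀ p j, ‖E p j‖ ≤ 1 := by
    intro p j
    have hj : ((j.2.2 : ℕ) : ℝ) ≤ Lc := by exact_mod_cast j.2.2.2.le
    have hu : ‖((j.2.2 : ℕ) : ℂ) * (κ p * l0)‖ ≤ ε / 2 := by
      rw [norm_mul, norm_mul, Complex.norm_natCast]
      have h3 : ((j.2.2 : ℕ) : ℝ) * (‖κ p‖ * ‖l0‖) ≤ Lc * (Z * ‖l0‖) :=
        mul_le_mul hj (mul_le_mul_of_nonneg_right (hκ p) (norm_nonneg _)) (by positivity)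
          (Nat.cast_nonneg _)
      have h4 : 2 * Lc * Z * ‖l0‖ ≤ ε := h0
      linarith
    have h5 := Complex.norm_exp_sub_one_le (hu.trans (by linarith))
    simp only [E]
    rw [norm_div, div_le_one (norm_pos_iff.2 hεc), Complex.norm_real,
      Real.norm_of_nonneg hεpos.le]
    linarith
  have hM0 : ∀ p j, ‖M0 p j‖ ≤ B := by
    intro p j
    simp only [M0]
    rw [norm_mul, norm_mul, norm_pow, norm_pow, Complex.norm_exp]
    have ha : ‖z1 p‖ ^ (j.1 : ℕ) ≤ Z ^ K :=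
      (pow_le_pow_left₀ (norm_nonneg _) (h1 p) _).trans (pow_le_pow_right₀ hZ j.1.2.le)
    have hb : ‖z2 p‖ ^ (j.2.1 : ℕ) ≤ Z ^ K :=
      (pow_le_pow_left₀ (norm_nonneg _) (h2 p) _).trans (pow_le_pow_right₀ hZ j.2.1.2.le)
    have hj : ((j.2.2 : ℕ) : ℝ) ≤ Lc := by exact_mod_cast j.2.2.2.le
    have he : Real.exp ((((j.2.2 : ℕ) : ℂ) * (z1 p * l1 + z2 p * l2)).re) ≤
        Real.exp (3 * Lc * C0) := by
      rw [Real.exp_le_exp]
      refine (Complex.re_le_norm _).trans ?_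
      rw [norm_mul, Complex.norm_natCast]
      have : ((j.2.2 : ℕ) : ℝ) * ‖z1 p * l1 + z2 p * l2‖ ≤ Lc * C0 :=
        mul_le_mul hj (hc p) (norm_nonneg _) (Nat.cast_nonneg _)
      have : 0 ≤ (Lc : ℝ) * C0 := by positivity
      linarith
    have hab : ‖z1 p‖ ^ (j.1 : ℕ) * ‖z2 p‖ ^ (j.2.1 : ℕ) ≤ (3 * Z) ^ (2 * K) := by
      calc ‖z1 p‖ ^ (j.1 : ℕ) * ‖z2 p‖ ^ (j.2.1 : ℕ) ≤ Z ^ K * Z ^ K :=
            mul_le_mul ha hb (by positivity) (by positivity)
        _ = Z ^ (2 * K) := by rw [two_mul, pow_add]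
        _ ≤ (3 * Z) ^ (2 * K) := pow_le_pow_left₀ (by linarith) (by linarith) _
    exact mul_le_mul hab he (Real.exp_pos _).le (by positivity)
  have hM1 : ∀ p j, ‖M0 p j * E p j‖ ≤ B := by
    intro p j
    rw [norm_mul]
    have hBpos : 0 ≤ B := by positivity
    calc ‖M0 p j‖ * ‖E p j‖ ≤ B * 1 := mul_le_mul (hM0 p j) (hE p j) (norm_nonneg _) hBpos
      _ = B := mul_one B
  have hmat : (Matrix.of (fun p j : Fin K × Fin K × Fin Lc => z1 p ^ (j.1 : ℕ) * z2 p ^ (j.2.1 : ℕ) *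
      Complex.exp (((j.2.2 : ℕ) : ℂ) * (κ p * l0 + z1 p * l1 + z2 p * l2)))) =
      Matrix.of (fun p j => M0 p j + (ε : ℂ) * (M0 p j * E p j)) := by
    ext p j
    simp only [Matrix.of_apply, E, M0]
    have : Complex.exp (((j.2.2 : ℕ) : ℂ) * (κ p * l0 + z1 p * l1 + z2 p * l2)) =
        Complex.exp (((j.2.2 : ℕ) : ℂ) * (z1 p * l1 + z2 p * l2)) *
          Complex.exp (((j.2.2 : ℕ) : ℂ) * (κ p * l0)) := by
      rw [← Complex.exp_add]; congr 1; ring
    rw [this]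
    field_simp
    ring
  rw [hmat, an8_det]
  refine (norm_sum_le _ _).trans ?_
  have hterm : ∀ I ∈ (Finset.univ : Finset (Finset (Fin K × Fin K × Fin Lc))),
      ‖(ε : ℂ) ^ (Fintype.card (Fin K × Fin K × Fin Lc) - I.card) *
        (Matrix.of (fun p j => if j ∈ I then M0 p j else M0 p j * E p j)).det‖ ≤
      (N.factorial : ℝ) * B ^ N * Real.exp (1 - (N : ℝ) * Real.sqrt (N : ℝ) / 12) := by
    intro I _
    have hI : I.card ≤ N := hcard ▸ Finset.card_le_univ I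
    have h8 := h7 K Lc I z1 z2 l1 l2 (Matrix.of (fun p j => M0 p j * E p j)) Z C0 B hZ hC h1 h2 hc
      le_rfl hM1
    rw [norm_mul, norm_pow, Complex.norm_real, Real.norm_of_nonneg hεpos.le, hcard]
    have h9 : ε ^ (N - I.card) = Real.exp (-(((N : ℝ) - I.card) * Real.sqrt N)) := by
      rw [hε, ← Real.exp_nat_mul, Nat.cast_sub hI]
      congr 1; ring
    have h10 := an8_num N I.card hN hI
    have hfac : 0 ≤ (N.factorial : ℝ) * B ^ N := by positivity
    calc ε ^ (N - I.card) * ‖(Matrix.of (fun p j => if j ∈ I then M0 p j else M0 p j * E p j)).det‖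
        ≤ ε ^ (N - I.card) * (Real.exp (1 - (I.card : ℝ) * (Real.sqrt I.card - 1) / 2) *
          ((N.factorial : ℝ) * B ^ N)) := mul_le_mul_of_nonneg_left h8 (by positivity)
      _ = (N.factorial : ℝ) * B ^ N * Real.exp (-(((N : ℝ) - I.card) * Real.sqrt N) +
          (1 - (I.card : ℝ) * (Real.sqrt I.card - 1) / 2)) := by
          rw [h9, Real.exp_add]; ring
      _ ≤ _ := by
          refine mul_le_mul_of_nonneg_left (Real.exp_le_exp.2 ?_) hfac
          linarith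
  refine (Finset.sum_le_sum hterm).trans ?_
  rw [Finset.sum_const, Finset.card_univ, Fintype.card_finset, hcard, nsmul_eq_mul]
  push_cast
  apply le_of_eq
  ring

end Pool.Helper99.BK
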