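import Pool.Agent.Helper99.BK.Stmts

namespace Pool.Helper99.BK

theorem an3_diff_det {ι : Type} [Fintype ι] [DecidableEq ι] (M : ℂ → Matrix ι ι ℂ)
    (h : ∀ i j, Differentiable ℂ (fun w => M w i j)) : Differentiable ℂ (fun w => (M w).det) := by
  simp only [Matrix.det_apply]
  refine Differentiable.fun_sum fun σ _ => ?_
  refine Differentiable.fun_const_smul ?_ _
  exact Differentiable.fun_finsetProd fun i _ => h _ _

theorem st_AN3 (h1 : ST_AN1) : ST_AN3 := by
  intro ι _ _ I T W hT a ha r hr A
  -- the pieces of the rows (transposed matrix)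
  let v : ℂ → ι → ℕ → ι → ℂ := fun w i s p =>
    if i ∈ I then (if s < T then a i s p else r i p w) else A p i
  let S : ι → Finset ℕ := fun i => if i ∈ I then Finset.range (T + 1) else {0}
  let D : (ι → ℕ) → ℂ → ℂ := fun t w => (Matrix.of (fun i p => v w i (t i) p)).det
  have hdet : ∀ w : ℂ, (Matrix.of (fun p j => if j ∈ I then
      (∑ s ∈ Finset.range T, w ^ s * a j s p) + w ^ T * r j p w else A p j)).det =
      ∑ t ∈ Fintype.piFinset S, w ^ (∑ j ∈ I, t j) * D t w := by
    intro w
    rw [← Matrix.det_transpose]
    have e1 : (Matrix.of (fun p j => if j ∈ I then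
      (∑ s ∈ Finset.range T, w ^ s * a j s p) + w ^ T * r j p w else A p j)).transpose =
      Matrix.of (fun i : ι => ∑ s ∈ S i, (if i ∈ I then w ^ s else 1) • v w i s) := by
      ext i p
      simp only [Matrix.transpose_apply, Matrix.of_apply, Finset.sum_apply, Pi.smul_apply,
        smul_eq_mul, S, v]
      by_cases hi : i ∈ I
      · simp only [hi, if_true]
        rw [Finset.sum_range_succ]
        congr 1
        · refine Finset.sum_congr rfl fun s hs => ?_
          rw [if_pos (Finset.mem_range.1 hs)]
        · rw [if_neg (lt_irrefl T)]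
      · simp [hi]
    rw [e1]
    have e2 := (Matrix.detRowAlternating (n := ι) (R := ℂ)).toMultilinearMap.map_sum_finset
      (fun i s => (if i ∈ I then w ^ s else (1 : ℂ)) • v w i s) S
    have e3 : (Matrix.of (fun i : ι => ∑ s ∈ S i, (if i ∈ I then w ^ s else 1) • v w i s)).det =
      (Matrix.detRowAlternating (n := ι) (R := ℂ)).toMultilinearMap
        (fun i : ι => ∑ s ∈ S i, (if i ∈ I then w ^ s else (1 : ℂ)) • v w i s) := rfl
    rw [e3, e2]
    refine Finset.sum_congr rfl fun t _ => ?_
    have e4 := (Matrix.detRowAlternating (n := ι) (R := ℂ)).toMultilinearMap.map_smul_univ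
      (fun i => if i ∈ I then w ^ (t i) else (1 : ℂ)) (fun i => v w i (t i))
    rw [e4, smul_eq_mul]
    congr 1
    rw [Finset.prod_ite, Finset.prod_const_one, mul_one, Finset.prod_pow_eq_pow_sum]
    congr 2
    ext i; simp
  have hD : ∀ t, Differentiable ℂ (D t) := by
    intro t
    refine an3_diff_det _ fun i p => ?_
    simp only [Matrix.of_apply, v]
    by_cases hi : i ∈ I
    · by_cases hs : t i < T
      · simp only [hi, hs, if_true]; exact differentiable_const _
      · simp only [hi, hs, if_true, if_false]; exact hr i p
    · simp only [hi, if_false]; exact differentiable_const _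
  have key : ∀ t ∈ Fintype.piFinset S, ∃ g : ℂ → ℂ, Differentiable ℂ g ∧
      ∀ w, w ^ (∑ j ∈ I, t j) * D t w = w ^ T * g w := by
    intro t ht
    have big : T ≤ ∑ j ∈ I, t j → ∃ g : ℂ → ℂ, Differentiable ℂ g ∧
        ∀ w, w ^ (∑ j ∈ I, t j) * D t w = w ^ T * g w := by
      intro hb
      refine ⟨fun w => w ^ (∑ j ∈ I, t j - T) * D t w, ?_, fun w => ?_⟩
      · exact (differentiable_pow _).mul (hD t)
      · rw [← mul_assoc, ← pow_add]
        congr 2
        omega
    by_cases h2 : ∃ i ∈ I, T ≤ t i
    · obtain ⟨i, hi, hti⟩ := h2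
      exact big (hti.trans (Finset.single_le_sum (f := t) (fun _ _ => Nat.zero_le _) hi))
    · push Not at h2
      have hconst : ∀ w, D t w = D t 0 := by
        intro w
        simp only [D, v]
        congr 2
        funext i p
        by_cases hi : i ∈ I
        · simp [hi, h2 i hi]
        · simp [hi]
      by_cases h0 : D t 0 = 0
      · exact ⟨fun _ => 0, differentiable_const _, fun w => by rw [hconst w, h0]; ring⟩
      · refine big (hT t fun s => ?_)
        by_cases hs : s < T
        · have h3 := h1 ι (Matrix.of (fun i p => v 0 i (t i) p)).transpose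
            (by rw [Matrix.det_transpose]; exact h0) (I.filter (fun j => t j = s)) (W s)
          refine h3 fun j hj => ?_
          rw [Finset.mem_filter] at hj
          have h4 : (fun p => (Matrix.of (fun i p => v 0 i (t i) p)).transpose p j) = a j s := by
            funext p
            simp only [Matrix.transpose_apply, Matrix.of_apply, v]
            rw [if_pos hj.1, hj.2, if_pos hs]
          rw [h4]
          exact ha j hj.1 s hs
        · have : I.filter (fun j => t j = s) = ∅ := by
            rw [Finset.filter_eq_empty_iff]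
            intro j hj hjs
            have := h2 j hj
            omega
          rw [this]
          simp
  choose! g hg1 hg2 using key
  refine ⟨fun w => ∑ t ∈ Fintype.piFinset S, g t w, Differentiable.fun_sum fun t ht => hg1 t ht,
    fun w => ?_⟩
  rw [hdet w, Finset.mul_sum]
  exact Finset.sum_congr rfl fun t ht => hg2 t ht w

end Pool.Helper99.BK
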