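import Pool.Agent.Helper99.BK.Stmts

namespace Pool.Helper99.BK

theorem st_AN4 : ST_AN4 := by
  intro T
  refine ⟨fun z => ∑' n : ℕ, z ^ n / ((n + T).factorial : ℂ), ?_, fun z => ?_⟩
  · intro z
    have hb : z ∈ Metric.ball (0 : ℂ) (‖z‖ + 1) := by simp
    refine (DifferentiableOn.differentiableAt ?_ (Metric.isOpen_ball.mem_nhds hb))
    refine Complex.differentiableOn_tsum_of_summable_norm
      (Real.summable_pow_div_factorial (‖z‖ + 1)) (fun n => ?_) Metric.isOpen_ball ?_
    · exact ((differentiable_pow n).div_const _).differentiableOn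
    · intro n w hw
      rw [norm_div, norm_pow, Complex.norm_natCast]
      have hw' : ‖w‖ ≤ ‖z‖ + 1 := by
        rw [mem_ball_zero_iff] at hw; exact hw.le
      have h1 : ‖w‖ ^ n ≤ (‖z‖ + 1) ^ n := pow_le_pow_left₀ (norm_nonneg _) hw' _
      have h2 : ((n.factorial : ℕ) : ℝ) ≤ ((n + T).factorial : ℝ) := by
        exact_mod_cast Nat.factorial_le (Nat.le_add_right n T)
      exact div_le_div₀ (by positivity) h1 (by positivity) h2
  · have hs : HasSum (fun n : ℕ => z ^ n / (n.factorial : ℂ)) (Complex.exp z) := by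
      rw [Complex.exp_eq_exp_ℂ]
      exact NormedSpace.expSeries_div_hasSum_exp z
    have h1 := hs.summable.sum_add_tsum_nat_add T
    rw [hs.tsum_eq] at h1
    rw [← h1, ← tsum_mul_left]
    congr 1
    refine tsum_congr fun n => ?_
    rw [pow_add]
    ring

end Pool.Helper99.BK
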