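import Pool.Agent.Helper99.BK.Stmts

namespace Pool.Helper99.BK

theorem st_AN5 : ST_AN5 := by
  intro T f g hg hf M hM
  have h1 : f 1 = g 1 := by rw [hf 1, one_pow, one_mul]
  rw [h1]
  have he : (0 : ℝ) < Real.exp 1 := Real.exp_pos 1
  refine Complex.norm_le_of_forall_mem_frontier_norm_le (U := Metric.ball (0 : ℂ) (Real.exp 1))
    Metric.isBounded_ball hg.diffContOnCl (fun w hw => ?_) (subset_closure ?_)
  · rw [frontier_ball _ he.ne', mem_sphere_zero_iff_norm] at hw
    have h2 := hM w hw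
    rw [hf w, norm_mul, norm_pow, hw, ← Real.exp_nat_mul, mul_one] at h2
    rw [Real.exp_neg, ← div_eq_inv_mul, le_div_iff₀ (Real.exp_pos _), mul_comm]
    exact h2
  · rw [mem_ball_zero_iff, norm_one]
    exact Real.one_lt_exp_iff.2 one_pos

end Pool.Helper99.BK
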