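import Pool.Agent.Helper99.BK.Stmts

namespace Pool.Helper99.BK

theorem st_MINOR : ST_MINOR := by
  intro F _ R ι _ _ A hA
  have htop : Submodule.span F (Set.range A) = ⊤ := by
    by_contra hne
    obtain ⟨f, hf0, hf⟩ := Submodule.exists_le_ker_of_lt_top _ (lt_top_iff_ne_top.2 hne)
    apply hf0
    have hx := hA (fun j => f (Pi.single j 1)) (fun r => by
      have h1 : f (A r) = 0 := hf (Submodule.subset_span ⟨r, rfl⟩)
      have h2 : A r = ∑ j, A r j • (Pi.single j (1 : F) : ι → F) := by
        funext k
        simp [Finset.sum_apply, Pi.single_apply]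
      rw [h2, map_sum] at h1
      simpa using h1)
    refine LinearMap.pi_ext' fun j => LinearMap.ext_ring ?_
    have := congrFun hx j
    simpa using this
  obtain ⟨b, hb, hspan, hli⟩ := exists_linearIndependent F (Set.range A)
  rw [htop] at hspan
  let bas : Module.Basis b F (ι → F) := Module.Basis.mk hli (by rw [Subtype.range_coe, hspan])
  have : Finite b := Module.Finite.finite_basis bas
  have := Fintype.ofFinite b
  have hc : Fintype.card ι = Fintype.card b := by
    rw [← Module.finrank_eq_card_basis bas, Module.finrank_fintype_fun_eq_card]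
  let e : ι ≃ b := Fintype.equivOfCardEq hc
  have hr : ∀ i, ∃ r, A r = e i := fun i => hb (e i).2
  choose r hr using hr
  refine ⟨r, ?_⟩
  have hli2 : LinearIndependent F (fun i => (Matrix.of (fun i j => A (r i) j)) i) := by
    have h3 : (fun i => (Matrix.of (fun i j => A (r i) j)) i) = (fun i => ((e i : b) : ι → F)) := by
      funext i j
      rw [← hr i]; rfl
    rw [h3]
    exact hli.comp e e.injective
  have h4 := Matrix.linearIndependent_rows_iff_isUnit.1 hli2
  exact ((Matrix.isUnit_iff_isUnit_det _).1 h4).ne_zero

end Pool.Helper99.BK
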